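import Pool.Agent.H92.Krein4

set_option autoImplicit false
open MeasureTheory
open Pool.Agent.H92.KreinDefs

namespace Pool.Agent.Results.MP_b1ee0a_an.Jordan

theorem result (A : EReal) (hA : 0 < A) (f : ℝ → ℂ) (hf : InR (Iv A) f) (hh : Herm (Iv A) f)
    (hm : Meas (Iv A) f) :
    ∃ g h : ℝ → ℂ, Pos (Iv A) g ∧ Meas (Iv A) g ∧ Pos (Iv A) h ∧ Meas (Iv A) h ∧
      (∀ x ∈ Iv A, f x = g x - h x) ∧ (nrm (Iv A) f : ℂ) = g 0 + h 0 :=
  have _ := hA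
  Pool.Agent.H92.Krein4.jordan (Pool.Agent.H92.Krein4.Iv_open A)
    (fun _ hx => Pool.Agent.H92.Krein4.Iv_neg hx) hf hh hm

end Pool.Agent.Results.MP_b1ee0a_an.Jordan
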